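import Pool.Agent.H65.CF.T6
import Pool.Agent.H19.ADM.ZEX

/-!
# EXD: the mollifier sums in terms of the real characters
-/

set_option autoImplicit false

open MeasureTheory Set Filter NumberField
open scoped Real nonZeroDivisors

namespace Pool.Agent.H83.CF

open Pool.Agent.H31.CN Pool.Agent.H65.AD Pool.Agent.H91.CF Pool.Agent.H65.CF

theorem prod_ch (hNRQ : T_NRQ) (P : Polynomial ℝ) (M : ℝ) (N D m : ℕ) (h2 : 2 ∣ N)
    (hD : D % 4 = 0 ∨ D % 4 = 3) : cm P M N m / m * ∏ p ∈ m.primeFactors, (1 + (ch p D : ℝ)) =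
      cm P M N m / m * ∏ p ∈ m.primeFactors, (1 + (chi p D : ℝ)) := by
  by_cases hm : Squarefree m ∧ Nat.Coprime m N
  · congr 1
    apply Finset.prod_congr rfl
    intro p hp
    have hpp := Nat.prime_of_mem_primeFactors hp
    have hp2 : p ≠ 2 := by
      intro h
      subst h
      have h3 : 2 ∣ m := Nat.dvd_of_mem_primeFactors hp
      have h4 : 2 ∣ Nat.gcd m N := Nat.dvd_gcd h3 h2
      rw [hm.2] at h4
      omega
    rw [(hNRQ D p hD hpp).2.2 hp2]
  · rw [Pool.Agent.H19.ADM.cm_zero' P M N m hm]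
    simp

theorem pf_EXD (hNRQ : T_NRQ) : T_EXD := by
  intro P M N D h2 hD
  constructor
  · unfold E0
    have h := Pool.Agent.H19.ADM.exch P M N D (fun _ => 1)
    simp only [mul_one] at h
    unfold A0
    rw [h]
    exact Finset.sum_congr rfl (fun m _ => prod_ch hNRQ P M N D m h2 hD)
  · unfold E1
    have h := Pool.Agent.H19.ADM.exch P M N D (fun m => Real.log m)
    unfold A1
    rw [h]
    refine Finset.sum_congr rfl (fun m _ => ?_)
    rw [prod_ch hNRQ P M N D m h2 hD]
    ring

end Pool.Agent.H83.CF
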