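import Pool.Agent.H31.CF.U4

/-!
# UWDS: the weight at level `(d s) ^ 2 Δ` is a weight
-/

set_option autoImplicit false

open MeasureTheory Set Filter
open scoped Real

namespace Pool.Agent.H83.CFU.WDSX

open Pool.Agent.H31.CN Pool.Agent.H91.CF Pool.Agent.H31.CF

/-- the term of the sum -/
noncomputable def tm (d s : ℕ) (w : ℕ → ℕ → ℤ → ℤ → ℝ) (e A : ℕ) (B C k : ℤ) : ℝ :=
  if ((d * s : ℕ) : ℤ) ∣ B + 2 * A * k ∧ ((s ^ 2 : ℕ) : ℤ) ∣ C + B * k + A * k ^ 2 ∧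
        IsCoprime ((C + B * k + A * k ^ 2) / (s ^ 2 : ℕ)) (d : ℤ) then
      w e (A / d ^ 2) ((B + 2 * A * k) / (d * s : ℕ)) ((C + B * k + A * k ^ 2) / (s ^ 2 : ℕ))
      else 0

theorem ws_eq (d s : ℕ) (w : ℕ → ℕ → ℤ → ℤ → ℝ) (e A : ℕ) (B C : ℤ) :
    ws d s w e A B C = if d ^ 2 ∣ A then ∑ k ∈ Finset.range s, tm d s w e A B C (k : ℤ) else 0 :=
  rfl

variable {q : ℕ} {K : ℝ} {w : ℕ → ℕ → ℤ → ℤ → ℝ}

theorem perB_nat (h : WD q K w) (e A : ℕ) (B C : ℤ) (m : ℕ) :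
    w e A (B + q * m) C = w e A B C := by
  induction m with
  | zero => simp
  | succ m ih =>
    have : B + (q : ℤ) * ((m + 1 : ℕ) : ℤ) = (B + q * m) + q := by push_cast; ring
    rw [this, h.perB, ih]

theorem perB_int (h : WD q K w) (e A : ℕ) (B C m : ℤ) : w e A (B + q * m) C = w e A B C := by
  obtain ⟨n, rfl | rfl⟩ := m.eq_nat_or_neg
  · exact perB_nat h e A B C n
  · have := perB_nat h e A (B + q * (-(n : ℤ))) C n
    rw [← this]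
    congr 1
    ring

theorem perC_nat (h : WD q K w) (e A : ℕ) (B C : ℤ) (m : ℕ) :
    w e A B (C + q * m) = w e A B C := by
  induction m with
  | zero => simp
  | succ m ih =>
    have : C + (q : ℤ) * ((m + 1 : ℕ) : ℤ) = (C + q * m) + q := by push_cast; ring
    rw [this, h.perC, ih]

theorem perC_int (h : WD q K w) (e A : ℕ) (B C m : ℤ) : w e A B (C + q * m) = w e A B C := by
  obtain ⟨n, rfl | rfl⟩ := m.eq_nat_or_neg
  · exact perC_nat h e A B C n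
  · have := perC_nat h e A B (C + q * (-(n : ℤ))) n
    rw [← this]
    congr 1
    ring

theorem inv_nat (h : WD q K w) (e A : ℕ) (B C : ℤ) (m : ℕ) :
    w e A (B + 2 * A * m) (C + B * m + A * (m : ℤ) ^ 2) = w e A B C := by
  induction m with
  | zero => simp
  | succ m ih =>
    rw [← ih, ← h.inv e A (B + 2 * A * m) (C + B * m + A * (m : ℤ) ^ 2)]
    congr 1
    · push_cast
      ring
    · push_cast
      ring

theorem cop_add (x d y : ℤ) : IsCoprime (x + d * y) d ↔ IsCoprime x d :=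
  IsCoprime.add_mul_left_left_iff

theorem tm_B (h : WD q K w) (d s : ℕ) (hd : 1 ≤ d) (hs : 1 ≤ s) (e A : ℕ) (B C k : ℤ) :
    tm d s w e A (B + (((d * s) ^ 2 * q : ℕ) : ℤ)) C k = tm d s w e A B C k := by
  have hds : ((d * s : ℕ) : ℤ) ≠ 0 := by
    have : 0 < d * s := Nat.mul_pos hd hs
    exact_mod_cast this.ne'
  have hs2 : ((s ^ 2 : ℕ) : ℤ) ≠ 0 := by
    have : 0 < s ^ 2 := by positivity
    exact_mod_cast this.ne'
  have e1 : B + (((d * s) ^ 2 * q : ℕ) : ℤ) + 2 * A * k =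
      (B + 2 * A * k) + ((d * s : ℕ) : ℤ) * (((d * s : ℕ) : ℤ) * q) := by
    push_cast
    ring
  have e2 : C + (B + (((d * s) ^ 2 * q : ℕ) : ℤ)) * k + A * k ^ 2 =
      (C + B * k + A * k ^ 2) + ((s ^ 2 : ℕ) : ℤ) * ((d : ℤ) ^ 2 * q * k) := by
    push_cast
    ring
  unfold tm
  rw [e1, e2, Int.add_mul_ediv_left _ _ hds, Int.add_mul_ediv_left _ _ hs2]
  have c1 : ((d * s : ℕ) : ℤ) ∣ (B + 2 * A * k) + ((d * s : ℕ) : ℤ) * (((d * s : ℕ) : ℤ) * q) ↔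
      ((d * s : ℕ) : ℤ) ∣ B + 2 * A * k := Int.dvd_add_left (Dvd.intro _ rfl)
  have c2 : ((s ^ 2 : ℕ) : ℤ) ∣ (C + B * k + A * k ^ 2) +
      ((s ^ 2 : ℕ) : ℤ) * ((d : ℤ) ^ 2 * q * k) ↔
      ((s ^ 2 : ℕ) : ℤ) ∣ C + B * k + A * k ^ 2 := Int.dvd_add_left (Dvd.intro _ rfl)
  have c3 : IsCoprime ((C + B * k + A * k ^ 2) / ((s ^ 2 : ℕ) : ℤ) + (d : ℤ) ^ 2 * q * k) (d : ℤ) ↔
      IsCoprime ((C + B * k + A * k ^ 2) / ((s ^ 2 : ℕ) : ℤ)) (d : ℤ) := by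
    have : (d : ℤ) ^ 2 * q * k = (d : ℤ) * ((d : ℤ) * q * k) := by ring
    rw [this]
    exact cop_add _ _ _
  have e3 : w e (A / d ^ 2) ((B + 2 * A * k) / ((d * s : ℕ) : ℤ) + ((d * s : ℕ) : ℤ) * q)
      ((C + B * k + A * k ^ 2) / ((s ^ 2 : ℕ) : ℤ) + (d : ℤ) ^ 2 * q * k) =
      w e (A / d ^ 2) ((B + 2 * A * k) / ((d * s : ℕ) : ℤ))
      ((C + B * k + A * k ^ 2) / ((s ^ 2 : ℕ) : ℤ)) := by
    rw [show ((d * s : ℕ) : ℤ) * (q : ℤ) = (q : ℤ) * ((d * s : ℕ) : ℤ) by ring,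
      show (d : ℤ) ^ 2 * q * k = (q : ℤ) * ((d : ℤ) ^ 2 * k) by ring, perB_int h, perC_int h]
  simp only [c1, c2, c3, e3]

theorem tm_C (h : WD q K w) (d s : ℕ) (hs : 1 ≤ s) (e A : ℕ) (B C k : ℤ) :
    tm d s w e A B (C + (((d * s) ^ 2 * q : ℕ) : ℤ)) k = tm d s w e A B C k := by
  have hs2 : ((s ^ 2 : ℕ) : ℤ) ≠ 0 := by
    have : 0 < s ^ 2 := by positivity
    exact_mod_cast this.ne'
  have e2 : (C + (((d * s) ^ 2 * q : ℕ) : ℤ)) + B * k + A * k ^ 2 =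
      (C + B * k + A * k ^ 2) + ((s ^ 2 : ℕ) : ℤ) * ((d : ℤ) ^ 2 * q) := by
    push_cast
    ring
  unfold tm
  rw [e2, Int.add_mul_ediv_left _ _ hs2]
  have c2 : ((s ^ 2 : ℕ) : ℤ) ∣ (C + B * k + A * k ^ 2) +
      ((s ^ 2 : ℕ) : ℤ) * ((d : ℤ) ^ 2 * q) ↔
      ((s ^ 2 : ℕ) : ℤ) ∣ C + B * k + A * k ^ 2 := Int.dvd_add_left (Dvd.intro _ rfl)
  have c3 : IsCoprime ((C + B * k + A * k ^ 2) / ((s ^ 2 : ℕ) : ℤ) + (d : ℤ) ^ 2 * q) (d : ℤ) ↔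
      IsCoprime ((C + B * k + A * k ^ 2) / ((s ^ 2 : ℕ) : ℤ)) (d : ℤ) := by
    have : (d : ℤ) ^ 2 * q = (d : ℤ) * ((d : ℤ) * q) := by ring
    rw [this]
    exact cop_add _ _ _
  have e3 : w e (A / d ^ 2) ((B + 2 * A * k) / ((d * s : ℕ) : ℤ))
      ((C + B * k + A * k ^ 2) / ((s ^ 2 : ℕ) : ℤ) + (d : ℤ) ^ 2 * q) =
      w e (A / d ^ 2) ((B + 2 * A * k) / ((d * s : ℕ) : ℤ))
      ((C + B * k + A * k ^ 2) / ((s ^ 2 : ℕ) : ℤ)) := by
    rw [show (d : ℤ) ^ 2 * q = (q : ℤ) * ((d : ℤ) ^ 2) by ring, perC_int h]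
  simp only [c2, c3, e3]

theorem tm_succ (d s : ℕ) (e A : ℕ) (B C k : ℤ) :
    tm d s w e A (B + 2 * A) (A + B + C) k = tm d s w e A B C (k + 1) := by
  have e1 : B + 2 * (A : ℤ) + 2 * A * k = B + 2 * A * (k + 1) := by ring
  have e2 : (A : ℤ) + B + C + (B + 2 * A) * k + A * k ^ 2 =
      C + B * (k + 1) + A * (k + 1) ^ 2 := by ring
  unfold tm
  rw [e1, e2]

theorem tm_end (h : WD q K w) (d s : ℕ) (hd : 1 ≤ d) (hs : 1 ≤ s) (e A : ℕ) (B C : ℤ)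
    (hA : d ^ 2 ∣ A) : tm d s w e A B C (s : ℤ) = tm d s w e A B C 0 := by
  obtain ⟨A', rfl⟩ := hA
  have hds : ((d * s : ℕ) : ℤ) ≠ 0 := by
    have : 0 < d * s := Nat.mul_pos hd hs
    exact_mod_cast this.ne'
  have hs2 : ((s ^ 2 : ℕ) : ℤ) ≠ 0 := by
    have : 0 < s ^ 2 := by positivity
    exact_mod_cast this.ne'
  have hdiv : d ^ 2 * A' / d ^ 2 = A' := Nat.mul_div_cancel_left A' (by positivity)
  have e1 : B + 2 * ((d ^ 2 * A' : ℕ) : ℤ) * s = B + ((d * s : ℕ) : ℤ) * (2 * A' * d) := by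
    push_cast
    ring
  unfold tm
  by_cases hB : ((d * s : ℕ) : ℤ) ∣ B
  · obtain ⟨β, rfl⟩ := hB
    have e2 : C + ((d * s : ℕ) : ℤ) * β * s + ((d ^ 2 * A' : ℕ) : ℤ) * (s : ℤ) ^ 2 =
        C + ((s ^ 2 : ℕ) : ℤ) * ((d : ℤ) * (β + d * A')) := by
      push_cast
      ring
    have e3 : C + ((d * s : ℕ) : ℤ) * β * 0 + ((d ^ 2 * A' : ℕ) : ℤ) * (0 : ℤ) ^ 2 = C := by ring
    have e4 : ((d * s : ℕ) : ℤ) * β + 2 * ((d ^ 2 * A' : ℕ) : ℤ) * 0 = ((d * s : ℕ) : ℤ) * β := by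
      ring
    rw [e1, e2, e3, e4, Int.add_mul_ediv_left _ _ hds, Int.add_mul_ediv_left _ _ hs2,
      Int.mul_ediv_cancel_left _ hds, hdiv]
    have c1 : ((d * s : ℕ) : ℤ) ∣ ((d * s : ℕ) : ℤ) * β + ((d * s : ℕ) : ℤ) * (2 * A' * d) ↔
        ((d * s : ℕ) : ℤ) ∣ ((d * s : ℕ) : ℤ) * β := Int.dvd_add_left (Dvd.intro _ rfl)
    have c2 : ((s ^ 2 : ℕ) : ℤ) ∣ C + ((s ^ 2 : ℕ) : ℤ) * ((d : ℤ) * (β + d * A')) ↔
        ((s ^ 2 : ℕ) : ℤ) ∣ C := Int.dvd_add_left (Dvd.intro _ rfl)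
    have c3 : IsCoprime (C / ((s ^ 2 : ℕ) : ℤ) + (d : ℤ) * (β + d * A')) (d : ℤ) ↔
        IsCoprime (C / ((s ^ 2 : ℕ) : ℤ)) (d : ℤ) := cop_add _ _ _
    have e5 : w e A' (β + 2 * A' * d) (C / ((s ^ 2 : ℕ) : ℤ) + (d : ℤ) * (β + d * A')) =
        w e A' β (C / ((s ^ 2 : ℕ) : ℤ)) := by
      rw [← inv_nat h e A' β (C / ((s ^ 2 : ℕ) : ℤ)) d]
      congr 1
      ring
    simp only [c1, c2, c3, e5]
  · have n1 : ¬ ((d * s : ℕ) : ℤ) ∣ B + 2 * ((d ^ 2 * A' : ℕ) : ℤ) * s := by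
      rw [e1, Int.dvd_add_left (Dvd.intro _ rfl)]
      exact hB
    have n2 : ¬ ((d * s : ℕ) : ℤ) ∣ B + 2 * ((d ^ 2 * A' : ℕ) : ℤ) * 0 := by
      rw [mul_zero, add_zero]
      exact hB
    rw [if_neg (fun hh => n1 hh.1), if_neg (fun hh => n2 hh.1)]

theorem tm_bd (h : WD q K w) (d s e A : ℕ) (B C k : ℤ) : |tm d s w e A B C k| ≤ K := by
  unfold tm
  split_ifs
  · exact h.bd _ _ _ _
  · rw [abs_zero]
    exact le_trans (abs_nonneg _) (h.bd 0 0 0 0)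

theorem main (q d s : ℕ) (K : ℝ) (w : ℕ → ℕ → ℤ → ℤ → ℝ) (hd : 1 ≤ d) (hs : 1 ≤ s)
    (h : WD q K w) : WD ((d * s) ^ 2 * q) (s * K) (ws d s w) where
  perB := by
    intro e A B C
    rw [ws_eq, ws_eq]
    split_ifs
    · exact Finset.sum_congr rfl (fun k _ => tm_B h d s hd hs e A B C k)
    · rfl
  perC := by
    intro e A B C
    rw [ws_eq, ws_eq]
    split_ifs
    · exact Finset.sum_congr rfl (fun k _ => tm_C h d s hs e A B C k)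
    · rfl
  inv := by
    intro e A B C
    rw [ws_eq, ws_eq]
    split_ifs with hA
    · have h1 : ∑ k ∈ Finset.range s, tm d s w e A (B + 2 * A) (A + B + C) (k : ℤ) =
          ∑ k ∈ Finset.range s, tm d s w e A B C ((k + 1 : ℕ) : ℤ) := by
        refine Finset.sum_congr rfl (fun k _ => ?_)
        rw [tm_succ]
        push_cast
        rfl
      rw [h1]
      have h2 := Finset.sum_range_succ (fun k : ℕ => tm d s w e A B C (k : ℤ)) s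
      have h3 := Finset.sum_range_succ' (fun k : ℕ => tm d s w e A B C (k : ℤ)) s
      have h4 := tm_end h d s hd hs e A B C hA
      rw [h2] at h3
      simp only [Nat.cast_zero] at h3
      linarith
    · rfl
  bd := by
    intro e A B C
    have hK : 0 ≤ K := le_trans (abs_nonneg _) (h.bd 0 0 0 0)
    rw [ws_eq]
    split_ifs
    · refine le_trans (Finset.abs_sum_le_sum_abs _ _) ?_
      refine le_trans (Finset.sum_le_card_nsmul _ _ K (fun k _ => tm_bd h d s e A B C k)) ?_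
      rw [Finset.card_range, nsmul_eq_mul]
    · rw [abs_zero]
      positivity

end Pool.Agent.H83.CFU.WDSX

namespace Pool.Agent.H83.CFU

open Pool.Agent.H31.CN Pool.Agent.H91.CF Pool.Agent.H31.CF

theorem pf_WDS : T_WDS := by
  intro q d s K w _ hd hs h
  exact WDSX.main q d s K w hd hs h

end Pool.Agent.H83.CFU
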